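import Pool.Agent.N933.MLS.Heat

set_option autoImplicit false

open Matrix Finset
open scoped ENNReal NNReal BigOperators

namespace Pool.Agent.N933.MLS

/-- unnormalised stationary weights -/
noncomputable def w (e : ℝ) (i : ℕ) : ℝ := if i = 0 then 1 else e / 2 ^ i
/-- rates upwards -/
noncomputable def u (e : ℝ) (i : ℕ) : ℝ := if i = 0 then e / 4 else 1 / 4

theorem w_u (e : ℝ) (k : ℕ) : w e k * u e k = w e (k+1) * (1/2) := by
  unfold w u
  rcases Nat.eq_zero_or_pos k with h | h
  · subst h; norm_num; ring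
  · have h1 : k ≠ 0 := by omega
    simp only [h1, if_false, Nat.succ_ne_zero, pow_succ]
    have : (2:ℝ)^k ≠ 0 := by positivity
    field_simp
    norm_num

/-- transition matrix of the walk on `{0, …, m}` -/
noncomputable def PP (m : ℕ) (e : ℝ) : Matrix (Fin (m+1)) (Fin (m+1)) ℝ := fun i j =>
  (if j = i then 1 else 0) + ∑ k : Fin m,
    ((if i = k.castSucc then
        u e k * ((if j = k.succ then 1 else 0) - (if j = k.castSucc then 1 else 0)) else 0) +
     (if i = k.succ then
        (1/2) * ((if j = k.castSucc then 1 else 0) - (if j = k.succ then 1 else 0)) else 0))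

theorem PP_mulVec (m : ℕ) (e : ℝ) (g : Fin (m+1) → ℝ) (i : Fin (m+1)) :
    (PP m e *ᵥ g) i = g i + ∑ k : Fin m,
      ((if i = k.castSucc then u e k * (g k.succ - g k.castSucc) else 0) +
       (if i = k.succ then (1/2) * (g k.castSucc - g k.succ) else 0)) := by
  simp only [mulVec, dotProduct, PP, add_mul, Finset.sum_add_distrib, Finset.sum_mul]
  congr 1
  · simp
  · rw [Finset.sum_comm, Finset.sum_comm (f := fun (x : Fin (m+1)) (k : Fin m) => (if i = k.succ then
        (1/2) * ((if x = k.castSucc then (1:ℝ) else 0) - (if x = k.succ then 1 else 0)) else 0) * g x)]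
    congr 1
    · refine Finset.sum_congr rfl fun k _ => ?_
      split_ifs
      · simp only [mul_sub, sub_mul, Finset.sum_sub_distrib]
        simp [mul_ite, ite_mul, Finset.sum_ite_eq']
      · simp
    · refine Finset.sum_congr rfl fun k _ => ?_
      split_ifs
      · simp only [mul_sub, sub_mul, Finset.sum_sub_distrib]
        simp [mul_ite, ite_mul, Finset.sum_ite_eq']
      · simp

theorem sum_cast_le {m : ℕ} (i : Fin (m+1)) (F : Fin m → ℝ) (D : ℝ) (hD : 0 ≤ D)
    (h : ∀ k : Fin m, i = k.castSucc → F k ≤ D) :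
    ∑ k : Fin m, (if i = k.castSucc then F k else 0) ≤ D := by
  by_cases hk : ∃ k : Fin m, i = k.castSucc
  · obtain ⟨k, hk⟩ := hk
    rw [Finset.sum_eq_single k]
    · rw [if_pos hk]; exact h k hk
    · intro b _ hb
      rw [if_neg]
      rintro rfl
      exact hb (Fin.castSucc_injective m hk)
    · intro h; exact absurd (Finset.mem_univ _) h
  · rw [Finset.sum_eq_zero]
    · exact hD
    · intro k _; rw [if_neg (fun h => hk ⟨k, h⟩)]

theorem sum_succ_zero {m : ℕ} (F : Fin m → ℝ) :
    ∑ k : Fin m, (if (0 : Fin (m+1)) = k.succ then F k else 0) = 0 := by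
  apply Finset.sum_eq_zero
  intro k _
  rw [if_neg (Fin.succ_ne_zero k).symm]

theorem sum_succ_succ {m : ℕ} (i : Fin m) (F : Fin m → ℝ) :
    ∑ k : Fin m, (if i.succ = k.succ then F k else 0) = F i := by
  simp [Fin.succ_inj]

theorem PP_row_sum (m : ℕ) (e : ℝ) (i : Fin (m+1)) : ∑ j, PP m e i j = 1 := by
  have := PP_mulVec m e (fun _ => 1) i
  simpa [mulVec, dotProduct] using this

theorem PP_nonneg (m : ℕ) (e : ℝ) (he : 0 ≤ e) (he1 : e ≤ 1) (i j : Fin (m+1)) :
    0 ≤ PP m e i j := by
  have hu : ∀ k : ℕ, 0 ≤ u e k := by intro k; unfold u; split_ifs <;> positivity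
  have hu2 : ∀ k : ℕ, u e k ≤ 1/4 := by
    intro k; unfold u; split_ifs <;> linarith
  by_cases hij : j = i
  · subst hij
    unfold PP
    rw [if_pos rfl, Finset.sum_add_distrib]
    have h1 : -(1/4 : ℝ) ≤ ∑ k : Fin m, (if j = k.castSucc then
        u e k * ((if j = k.succ then 1 else 0) - (if j = k.castSucc then 1 else 0)) else 0) := by
      have := sum_cast_le j (fun k => u e k) (1/4) (by norm_num) (fun k _ => hu2 k)
      have h2 : ∑ k : Fin m, (if j = k.castSucc then
        u e k * ((if j = k.succ then 1 else 0) - (if j = k.castSucc then 1 else 0)) else 0) =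
        - ∑ k : Fin m, (if j = k.castSucc then u e k else 0) := by
        rw [← Finset.sum_neg_distrib]
        refine Finset.sum_congr rfl fun k _ => ?_
        split_ifs with h3 h4
        · exfalso
          rw [h3] at h4
          exact absurd h4 (ne_of_lt (Fin.castSucc_lt_succ (i := k)))
        · ring
        · ring
      rw [h2]; linarith
    have h2 : -(1/2 : ℝ) ≤ ∑ k : Fin m, (if j = k.succ then
        (1/2) * ((if j = k.castSucc then (1:ℝ) else 0) - (if j = k.succ then 1 else 0)) else 0) := by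
      rcases Fin.eq_zero_or_eq_succ j with h0 | ⟨j', rfl⟩
      · subst h0
        rw [sum_succ_zero]; norm_num
      · rw [sum_succ_succ]
        have h5 : (j'.succ : Fin (m+1)) ≠ j'.castSucc := (ne_of_lt (Fin.castSucc_lt_succ (i := j'))).symm
        simp [h5]
    linarith
  · unfold PP
    rw [if_neg hij, zero_add]
    refine Finset.sum_nonneg fun k _ => add_nonneg ?_ ?_
    · split_ifs with h1 h2 h3 h3
      · exact absurd (h3.trans h1.symm) hij
      · have := hu k; linarith
      · exact absurd (h3.trans h1.symm) hij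
      · simp
      · exact le_rfl
    · split_ifs with h1 h2 h3 h3
      · exact absurd (h3.trans h1.symm) hij
      · norm_num
      · exact absurd (h3.trans h1.symm) hij
      · simp
      · exact le_rfl

noncomputable def ZZ (m : ℕ) (e : ℝ) : ℝ := ∑ i : Fin (m+1), w e i
noncomputable def pi (m : ℕ) (e : ℝ) (i : Fin (m+1)) : ℝ := w e i / ZZ m e

theorem w_pos {e : ℝ} (he : 0 < e) (i : ℕ) : 0 < w e i := by
  unfold w; split_ifs <;> positivity

theorem ZZ_ge {m : ℕ} {e : ℝ} (he : 0 < e) : 1 ≤ ZZ m e := by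
  unfold ZZ
  rw [Fin.sum_univ_succ]
  have : 0 ≤ ∑ i : Fin m, w e (i.succ : Fin (m+1)) := Finset.sum_nonneg fun i _ => (w_pos he _).le
  have h0 : w e ((0 : Fin (m+1)) : ℕ) = 1 := by simp [w]
  linarith

theorem geo_half (n : ℕ) : ∑ i : Fin n, (1:ℝ) / 2 ^ ((i : ℕ) + 1) = 1 - 1 / 2 ^ n := by
  induction n with
  | zero => simp
  | succ n ih =>
    rw [Fin.sum_univ_castSucc]
    simp only [Fin.val_castSucc, Fin.val_last]
    rw [ih, pow_succ]
    have : (2:ℝ)^n ≠ 0 := by positivity
    field_simp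
    ring

theorem ZZ_le {m : ℕ} {e : ℝ} (he : 0 < e) : ZZ m e ≤ 1 + e := by
  unfold ZZ
  rw [Fin.sum_univ_succ]
  have h0 : w e ((0 : Fin (m+1)) : ℕ) = 1 := by simp [w]
  have h1 : ∑ i : Fin m, w e (i.succ : Fin (m+1)) = e * ∑ i : Fin m, (1:ℝ) / 2 ^ ((i : ℕ) + 1) := by
    rw [Finset.mul_sum]
    refine Finset.sum_congr rfl fun i _ => ?_
    simp [w]; ring
  rw [h0, h1, geo_half]
  have : 0 < (1:ℝ) / 2 ^ m := by positivity
  nlinarith

theorem pi_pos {m : ℕ} {e : ℝ} (he : 0 < e) (i : Fin (m+1)) : 0 < pi m e i :=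
  div_pos (w_pos he _) (lt_of_lt_of_le one_pos (ZZ_ge he))

theorem pi_sum {m : ℕ} {e : ℝ} (he : 0 < e) : ∑ i, pi m e i = 1 := by
  unfold pi
  rw [← Finset.sum_div]
  exact div_self (lt_of_lt_of_le one_pos (ZZ_ge he)).ne'

theorem pi_u {m : ℕ} (e : ℝ) (k : Fin m) :
    pi m e k.castSucc * u e k = pi m e k.succ * (1/2) := by
  unfold pi
  have := w_u e k
  simp only [Fin.val_castSucc, Fin.val_succ]
  rw [div_mul_eq_mul_div, div_mul_eq_mul_div, this]

theorem reversible {m : ℕ} (e : ℝ) (i j : Fin (m+1)) :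
    pi m e i * PP m e i j = pi m e j * PP m e j i := by
  by_cases hij : j = i
  · subst hij; rfl
  · unfold PP
    rw [if_neg hij, if_neg (Ne.symm hij), zero_add, zero_add, Finset.mul_sum, Finset.mul_sum]
    refine Finset.sum_congr rfl fun k _ => ?_
    have hk := pi_u e k
    have hne : k.castSucc ≠ k.succ := ne_of_lt (Fin.castSucc_lt_succ (i := k))
    by_cases h1 : i = k.castSucc
    · by_cases h2 : j = k.succ
      · subst h1; subst h2
        simp [hne, hne.symm]
        linarith
      · subst h1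
        have h3 : ¬ j = k.castSucc := hij
        simp [h2, h3, hne, hne.symm]
    · by_cases h2 : i = k.succ
      · by_cases h3 : j = k.castSucc
        · subst h2; subst h3
          simp [hne, hne.symm]
          linarith
        · subst h2
          have h4 : ¬ j = k.succ := hij
          simp [h3, h4, hne, hne.symm]
      · simp [h1, h2]

theorem dirichlet_eq {m : ℕ} (e : ℝ) (g f : Fin (m+1) → ℝ) :
    dirichlet (PP m e) (pi m e) g f =
      ∑ k : Fin m, pi m e k.castSucc * u e k * ((g k.succ - g k.castSucc) *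
        (f k.succ - f k.castSucc)) := by
  unfold dirichlet
  have h1 : ∀ i, pi m e i * ((g i - (PP m e *ᵥ g) i) * f i) = ∑ k : Fin m,
      ((if i = k.castSucc then -(pi m e i * (u e k * (g k.succ - g k.castSucc)) * f i) else 0) +
       (if i = k.succ then -(pi m e i * ((1/2) * (g k.castSucc - g k.succ)) * f i) else 0)) := by
    intro i
    rw [PP_mulVec, sub_add_eq_sub_sub, sub_self, zero_sub, neg_mul, mul_neg, Finset.sum_mul,
      Finset.mul_sum, ← Finset.sum_neg_distrib]
    refine Finset.sum_congr rfl fun k _ => ?_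
    split_ifs <;> ring
  simp_rw [h1]
  rw [Finset.sum_comm]
  refine Finset.sum_congr rfl fun k _ => ?_
  rw [Finset.sum_add_distrib]
  simp only [Finset.sum_ite_eq', Finset.mem_univ, if_true]
  have hk := pi_u e k
  linear_combination (-(g k.succ - g k.castSucc) * f k.succ) * hk

theorem up_pos {m : ℕ} {e : ℝ} (he : 0 < e) (he1 : e ≤ 1) (k : Fin m) :
    0 < PP m e k.castSucc k.succ := by
  have hne : k.castSucc ≠ k.succ := ne_of_lt (Fin.castSucc_lt_succ (i := k))
  have hu : ∀ k : ℕ, 0 < u e k := by intro k; unfold u; split_ifs <;> positivity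
  unfold PP
  rw [if_neg hne.symm, zero_add]
  refine Finset.sum_pos' (fun l _ => ?_) ⟨k, Finset.mem_univ _, ?_⟩
  · have hul := (hu l).le
    refine add_nonneg ?_ ?_
    · split_ifs with h1 h2 h3 h3
      · rw [← h1] at h3; exact absurd h3 hne.symm
      · linarith
      · rw [← h1] at h3; exact absurd h3 hne.symm
      · simp
      · exact le_rfl
    · split_ifs with h1 h2 h3 h3
      · rw [← h1] at h3; exact absurd h3 hne.symm
      · norm_num
      · rw [← h1] at h3; exact absurd h3 hne.symm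
      · simp
      · exact le_rfl
  · have huk := hu k
    simp [hne, hne.symm]
    exact huk

theorem down_pos {m : ℕ} {e : ℝ} (he : 0 < e) (he1 : e ≤ 1) (k : Fin m) :
    0 < PP m e k.succ k.castSucc := by
  have h := reversible e k.castSucc k.succ
  have h1 := up_pos he he1 k
  have h2 := pi_pos he k.castSucc
  have h3 := pi_pos he k.succ
  have h4 : 0 < pi m e k.succ * PP m e k.succ k.castSucc := by rw [← h]; positivity
  exact (pos_iff_pos_of_mul_pos h4).1 h3

theorem pow_pos_mul {Ω : Type*} [Fintype Ω] [DecidableEq Ω] {P : Matrix Ω Ω ℝ}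
    (hP : ∀ x y, 0 ≤ P x y) {a b : ℕ} {x y z : Ω} (h1 : 0 < (P ^ a) x y) (h2 : 0 < (P ^ b) y z) :
    0 < (P ^ (a + b)) x z := by
  rw [pow_add, Matrix.mul_apply]
  exact Finset.sum_pos' (fun i _ => mul_nonneg (pow_nonneg_of_nonneg hP a x i)
    (pow_nonneg_of_nonneg hP b i z)) ⟨y, Finset.mem_univ _, mul_pos h1 h2⟩

theorem irreducible {m : ℕ} {e : ℝ} (he : 0 < e) (he1 : e ≤ 1) (x y : Fin (m+1)) :
    ∃ n : ℕ, 0 < (PP m e ^ n) x y := by
  have hP := PP_nonneg m e he.le he1
  have h0 : ∀ x : Fin (m+1), (∃ n : ℕ, 0 < (PP m e ^ n) x 0) ∧ ∃ n : ℕ, 0 < (PP m e ^ n) 0 x := by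
    intro x
    induction x using Fin.induction with
    | zero => exact ⟨⟨0, by simp⟩, ⟨0, by simp⟩⟩
    | succ i ih =>
      obtain ⟨⟨a, ha⟩, ⟨b, hb⟩⟩ := ih
      refine ⟨⟨1 + a, pow_pos_mul hP ?_ ha⟩, ⟨b + 1, pow_pos_mul hP hb ?_⟩⟩
      · simpa using down_pos he he1 i
      · simpa using up_pos he he1 i
  obtain ⟨a, ha⟩ := (h0 x).1
  obtain ⟨b, hb⟩ := (h0 y).2
  exact ⟨a + b, pow_pos_mul hP ha hb⟩

theorem isChain {m : ℕ} {e : ℝ} (he : 0 < e) (he1 : e ≤ 1) :
    IsReversibleChain (PP m e) (pi m e) where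
  nonneg := PP_nonneg m e he.le he1
  row_sum := PP_row_sum m e
  irreducible := irreducible he he1
  pi_pos := pi_pos he
  pi_sum := pi_sum he
  reversible := reversible e

/-! ### drift -/

noncomputable def vv {m : ℕ} (i : Fin (m+1)) : ℝ := (3/2 : ℝ) ^ (i : ℕ) - 1

theorem vv_nonneg {m : ℕ} (i : Fin (m+1)) : 0 ≤ vv i := by
  unfold vv
  have : (1:ℝ) ≤ (3/2) ^ (i : ℕ) := one_le_pow₀ (by norm_num)
  linarith

theorem drift {m : ℕ} {e : ℝ} (he : 0 < e) (he1 : e ≤ 1) (i : Fin (m+1)) :
    (PP m e *ᵥ vv) i ≤ (23/24) * vv i + e / 8 := by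
  rw [PP_mulVec, Finset.sum_add_distrib]
  rcases Fin.eq_zero_or_eq_succ i with h0 | ⟨i, rfl⟩
  · subst h0
    rw [sum_succ_zero, add_zero]
    have h1 : ∑ k : Fin m, (if (0 : Fin (m+1)) = k.castSucc then u e k * (vv k.succ - vv k.castSucc) else 0) ≤ e/8 := by
      apply sum_cast_le _ _ _ (by positivity)
      intro k hk
      have hk0 : (k : ℕ) = 0 := by
        have := congrArg Fin.val hk
        simpa using this.symm
      simp only [vv, u, Fin.val_succ, Fin.val_castSucc, hk0]
      norm_num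
      linarith
    have h2 : vv (0 : Fin (m+1)) = 0 := by simp [vv]
    rw [h2]; linarith
  · rw [sum_succ_succ]
    have h1 : ∑ k : Fin m, (if i.succ = k.castSucc then u e k * (vv k.succ - vv k.castSucc) else 0)
        ≤ (1/8) * (3/2 : ℝ)^((i : ℕ) + 1) := by
      apply sum_cast_le _ _ _ (by positivity)
      intro k hk
      have hk0 : (k : ℕ) = (i : ℕ) + 1 := by
        have := congrArg Fin.val hk
        simpa using this.symm
      have hk1 : ¬ ((i : ℕ) + 1 = 0) := by omega
      simp only [vv, u, Fin.val_succ, Fin.val_castSucc, hk0, hk1, if_false, pow_succ]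
      apply le_of_eq; ring
    have h3 : vv i.succ = (3/2 : ℝ)^((i : ℕ)+1) - 1 := by simp [vv]
    have h4 : vv i.castSucc = (3/2 : ℝ)^(i : ℕ) - 1 := by simp [vv]
    rw [h3, h4]
    have h5 : (3/2 : ℝ)^((i : ℕ)+1) = (3/2) ^ (i : ℕ) * (3/2) := pow_succ _ _
    have h6 : (0:ℝ) < (3/2 : ℝ)^(i : ℕ) := by positivity
    rw [h5] at h1 ⊢
    nlinarith

/-- probability of not being at `0` -/
theorem away_le {m : ℕ} {e : ℝ} (he : 0 < e) (he1 : e ≤ 1) {t : ℝ} (ht : 0 ≤ t)
    (x : Fin (m+1)) :
    ∑ y ∈ Finset.univ.erase 0, heat (PP m e) t x y ≤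
      2 * (Real.exp (-(t/24)) * (3/2 : ℝ)^m) + 6 * e := by
  have h1 := heat_drift (PP_nonneg m e he.le he1) (PP_row_sum m e) (v := vv) (r := 23/24)
    (c := e/8) (by norm_num) (by norm_num) (by positivity) (drift he he1) ht x
  have h2 : ∑ y ∈ Finset.univ.erase 0, heat (PP m e) t x y ≤ 2 * (heat (PP m e) t *ᵥ vv) x := by
    simp only [mulVec, dotProduct]
    rw [Finset.mul_sum]
    calc ∑ y ∈ Finset.univ.erase 0, heat (PP m e) t x y
        ≤ ∑ y ∈ Finset.univ.erase 0, 2 * (heat (PP m e) t x y * vv y) := by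
          refine Finset.sum_le_sum fun y hy => ?_
          have hy0 : y ≠ 0 := Finset.ne_of_mem_erase hy
          obtain ⟨k, rfl⟩ := Fin.exists_succ_eq.2 hy0
          have h3 : (1/2 : ℝ) ≤ vv k.succ := by
            unfold vv
            have : (1:ℝ) ≤ (3/2) ^ (k : ℕ) := one_le_pow₀ (by norm_num)
            simp only [Fin.val_succ, pow_succ]
            linarith
          have h4 := heat_nonneg (PP_nonneg m e he.le he1) ht x k.succ
          nlinarith
      _ ≤ ∑ y, 2 * (heat (PP m e) t x y * vv y) := by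
          refine Finset.sum_le_sum_of_subset_of_nonneg (Finset.erase_subset _ _) ?_
          intro y _ _
          have := heat_nonneg (PP_nonneg m e he.le he1) ht x y
          have := vv_nonneg y
          positivity
  have h3 : vv x ≤ (3/2 : ℝ)^m := by
    unfold vv
    have : (3/2 : ℝ)^(x : ℕ) ≤ (3/2)^m := pow_le_pow_right₀ (by norm_num) (by omega)
    linarith
  have h4 : Real.exp (-((1 - 23/24) * t)) = Real.exp (-(t/24)) := by congr 1; ring
  rw [h4] at h1
  have h5 : e/8 / (1 - 23/24) = 3 * e := by ring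
  rw [h5] at h1
  have h6 : Real.exp (-(t/24)) * vv x ≤ Real.exp (-(t/24)) * (3/2 : ℝ)^m := by gcongr
  linarith

end Pool.Agent.N933.MLS
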