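import Mathlib

/-!
Definitions for MP_bada7b_pr: finite reversible chains in continuous time, the modified
log-Sobolev constant, the entropy mixing time, the entropy hitting-time parameter.
-/

set_option autoImplicit false

open Matrix Finset
open scoped ENNReal NNReal BigOperators

namespace Pool.Agent.N933.MLS

variable {Ω : Type*} [Fintype Ω] [DecidableEq Ω]

/-- `P` is an irreducible transition matrix on the finite set `Ω` which is reversible with respect
to the probability distribution `π`. -/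
structure IsReversibleChain (P : Matrix Ω Ω ℝ) (π : Ω → ℝ) : Prop where
  nonneg : ∀ x y, 0 ≤ P x y
  row_sum : ∀ x, ∑ y, P x y = 1
  irreducible : ∀ x y, ∃ n : ℕ, 0 < (P ^ n) x y
  pi_pos : ∀ x, 0 < π x
  pi_sum : ∑ x, π x = 1
  reversible : ∀ x y, π x * P x y = π y * P y x

/-- `H_t = exp (-t (I - P))`; `H_t x y` is the probability that the continuous-time chain started
at `x` is at `y` at time `t`. -/
noncomputable def heat (P : Matrix Ω Ω ℝ) (t : ℝ) : Matrix Ω Ω ℝ :=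
  NormedSpace.exp (-(t • (1 - P)))

/-- The Dirichlet form `ℰ(f,g) = ⟨(I - P) f, g⟩_π`. -/
noncomputable def dirichlet (P : Matrix Ω Ω ℝ) (π : Ω → ℝ) (f g : Ω → ℝ) : ℝ :=
  ∑ x, π x * ((f x - (P *ᵥ f) x) * g x)

/-- `Ent_π(f) = E_π[f log f] - E_π[f] log E_π[f]`. -/
noncomputable def ent (π : Ω → ℝ) (f : Ω → ℝ) : ℝ :=
  ∑ x, π x * (f x * Real.log (f x)) - (∑ x, π x * f x) * Real.log (∑ x, π x * f x)

/-- The modified log-Sobolev constant: the infimum of `ℰ(e^f, f) / Ent_π(e^f)` over all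
non-constant `f`. -/
noncomputable def cMLS (P : Matrix Ω Ω ℝ) (π : Ω → ℝ) : ℝ≥0∞ :=
  ⨅ (f : Ω → ℝ) (_ : ∃ x y, f x ≠ f y),
    ENNReal.ofReal (dirichlet P π (fun x => Real.exp (f x)) f / ent π (fun x => Real.exp (f x)))

/-- Relative entropy `D(μ ‖ π) = ∑ μ(x) log (μ(x) / π(x))`. -/
noncomputable def relEnt (μ π : Ω → ℝ) : ℝ := ∑ x, μ x * Real.log (μ x / π x)

/-- The entropy mixing time `max_x inf {t ≥ 0 : D(Pr_x^t ‖ π) ≤ 1/2}`. -/
noncomputable def tauEnt (P : Matrix Ω Ω ℝ) (π : Ω → ℝ) : ℝ≥0∞ :=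
  ⨆ x : Ω, ⨅ (t : ℝ≥0) (_ : relEnt (fun y => heat P t x y) π ≤ 1 / 2), (t : ℝ≥0∞)

/-- The matrix `P` restricted to `A` (the transition matrix of the chain killed when it leaves
`A`). -/
def killed (P : Matrix Ω Ω ℝ) (A : Finset Ω) : Matrix Ω Ω ℝ :=
  fun x y => if x ∈ A ∧ y ∈ A then P x y else 0

/-- `Pr_x[T_{Aᶜ} > t]`: the probability that the continuous-time chain started at `x` has not left
`A` up to time `t`. -/
noncomputable def stay (P : Matrix Ω Ω ℝ) (A : Finset Ω) (t : ℝ) (x : Ω) : ℝ :=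
  if x ∈ A then ∑ y ∈ A, heat (killed P A) t x y else 0

/-- `A` is connected: `Pr_a[T_b < T_{Aᶜ}] > 0` for all `a, b ∈ A`, that is, one can go from `a` to
`b` without leaving `A`. -/
def IsConn (P : Matrix Ω Ω ℝ) (A : Finset Ω) : Prop :=
  ∀ a ∈ A, ∀ b ∈ A, ∃ n : ℕ, 0 < (killed P A ^ n) a b

/-- The entropy hitting-time parameter `ρ_ent` (with the constant `Cent`): the maximum over `x` of
the least `t` such that `Pr_x[T_{Aᶜ} > t] ≤ min (Cent / |log π(A)|) (99/100)` for all connected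
nonempty `A` with `π(A) ≤ 1/2`. -/
noncomputable def rhoEnt (Cent : ℝ) (P : Matrix Ω Ω ℝ) (π : Ω → ℝ) : ℝ≥0∞ :=
  ⨆ x : Ω, ⨅ (t : ℝ≥0) (_ : ∀ A : Finset Ω, A.Nonempty → IsConn P A → ∑ a ∈ A, π a ≤ 1 / 2 →
    stay P A t x ≤ min (Cent / |Real.log (∑ a ∈ A, π a)|) (99 / 100)), (t : ℝ≥0∞)

end Pool.Agent.N933.MLS
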