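import Pool.Agent.N933.MLS.Main

set_option autoImplicit false

open Matrix Finset Filter Topology
open scoped ENNReal NNReal BigOperators

namespace Pool.Agent.N933.MLS

theorem V_ge (m : ℕ) : ((m : ℝ) + 1) ≤ 2 * (3/2 : ℝ) ^ m := by
  have h := one_add_mul_le_pow (a := (1/2 : ℝ)) (by norm_num) m
  have h2 : (1 + 1/2 : ℝ) = 3/2 := by norm_num
  rw [h2] at h
  linarith

theorem V_ge4 {m : ℕ} (hm : 10 ≤ m) : 4 * ((m : ℝ) + 1) ≤ (3/2 : ℝ) ^ m := by
  induction m, hm using Nat.le_induction with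
  | base => norm_num
  | succ n hn ih =>
    rw [pow_succ]
    push_cast
    have : (10:ℝ) ≤ n := by exact_mod_cast hn
    linarith

theorem V_le2 {m : ℕ} (hm : 10 ≤ m) : (3/2 : ℝ) ^ m + 2 ≤ 2 ^ m := by
  induction m, hm using Nat.le_induction with
  | base => norm_num
  | succ n hn ih =>
    rw [pow_succ, pow_succ]
    have : (0:ℝ) < 2 ^ n := by positivity
    linarith

theorem tendsto_V : Tendsto (fun m : ℕ => (3/2 : ℝ) ^ m) atTop atTop :=
  tendsto_pow_atTop_atTop_of_one_lt (by norm_num)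

/-- the bound for the probability of being away from `0` at time `24 m` -/
noncomputable def qq (m : ℕ) : ℝ :=
  2 * (Real.exp (-((24 * (m : ℝ))/24)) * (3/2 : ℝ)^m) + 6 * Real.exp (-(3/2 : ℝ)^m)

theorem tendsto_q : Tendsto (fun m : ℕ => qq m * ((3/2 : ℝ)^m + m + 1)) atTop (𝓝 0) := by
  have h1 : Tendsto (fun m : ℕ => 6 * (9/4 * Real.exp (-1)) ^ m +
      18 * (((3/2 : ℝ)^m) ^ 1 * Real.exp (-(3/2 : ℝ)^m))) atTop (𝓝 (6 * 0 + 18 * 0)) := by
    refine Tendsto.add (Tendsto.const_mul _ ?_) (Tendsto.const_mul _ ?_)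
    · apply tendsto_pow_atTop_nhds_zero_of_lt_one
      · positivity
      · have : Real.exp (-1) < 0.3678794413 := by
          exact Real.exp_neg_one_lt_d9.trans (by norm_num)
        linarith
    · exact (Real.tendsto_pow_mul_exp_neg_atTop_nhds_zero 1).comp tendsto_V
  rw [mul_zero, mul_zero, add_zero] at h1
  refine squeeze_zero (fun m => ?_) (fun m => ?_) h1
  · unfold qq; positivity
  · have hV := V_ge m
    have hq : 0 ≤ qq m := by unfold qq; positivity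
    calc qq m * ((3/2 : ℝ)^m + m + 1) ≤ qq m * (3 * (3/2 : ℝ)^m) := by
          refine mul_le_mul_of_nonneg_left ?_ hq
          linarith
      _ = 6 * (9/4 * Real.exp (-1)) ^ m + 18 * (((3/2 : ℝ)^m) ^ 1 * Real.exp (-(3/2 : ℝ)^m)) := by
          unfold qq
          have h2 : Real.exp (-((24 * (m : ℝ))/24)) = (Real.exp (-1)) ^ m := by
            rw [← Real.exp_nat_mul]; congr 1; ring
          have h3 : (9/4 : ℝ) ^ m = (3/2) ^ m * (3/2) ^ m := by rw [← mul_pow]; norm_num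
          rw [h2, mul_pow, h3]
          ring

theorem ev_all (Cent : ℝ) (hC : 0 < Cent) : ∀ᶠ m : ℕ in atTop,
    IsReversibleChain (PP m (Real.exp (-(3/2 : ℝ)^m))) (pi m (Real.exp (-(3/2 : ℝ)^m))) ∧
    tauEnt (PP m (Real.exp (-(3/2 : ℝ)^m))) (pi m (Real.exp (-(3/2 : ℝ)^m))) ≤ 24 * (m : ℝ≥0∞) ∧
    rhoEnt Cent (PP m (Real.exp (-(3/2 : ℝ)^m))) (pi m (Real.exp (-(3/2 : ℝ)^m)))
      ≤ 24 * (m : ℝ≥0∞) ∧
    (∃ x, (3/2 : ℝ)^m ≤ Real.log (1 / pi m (Real.exp (-(3/2 : ℝ)^m)) x)) ∧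
    ∀ x, ENNReal.ofReal (Real.log (1 / pi m (Real.exp (-(3/2 : ℝ)^m)) x) / 4) ≤
      (cMLS (PP m (Real.exp (-(3/2 : ℝ)^m))) (pi m (Real.exp (-(3/2 : ℝ)^m))))⁻¹ := by
  have hexp : Tendsto (fun m : ℕ => Real.exp (-(3/2 : ℝ)^m)) atTop (𝓝 0) :=
    (Real.tendsto_exp_neg_atTop_nhds_zero).comp tendsto_V
  have e1 : ∀ᶠ m : ℕ in atTop, qq m * ((3/2 : ℝ)^m + m + 1) < min (min Cent (1/4)) (1/4) :=
    tendsto_q.eventually (gt_mem_nhds (by positivity))
  have e2 : ∀ᶠ m : ℕ in atTop, Real.exp (-(3/2 : ℝ)^m) < 1/4 :=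
    hexp.eventually (gt_mem_nhds (by norm_num))
  filter_upwards [e1, e2, eventually_ge_atTop 10] with m h1 h2 hm
  set V : ℝ := (3/2 : ℝ)^m with hVdef
  set e : ℝ := Real.exp (-V) with he_def
  have hV0 : 0 ≤ V := by positivity
  have he : 0 < e := Real.exp_pos _
  have he1 : e ≤ 1 := by linarith
  have hm0 : (10:ℝ) ≤ m := by exact_mod_cast hm
  have hV4 : 4 * ((m : ℝ) + 1) ≤ V := V_ge4 hm
  have hV2 : V + 2 ≤ 2 ^ m := V_le2 hm
  have hlt := lt_min_iff.1 h1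
  have hlt2 := lt_min_iff.1 hlt.1
  have hq0 : 0 ≤ qq m := by unfold qq; positivity
  set t : ℝ≥0 := 24 * (m : ℝ≥0) with ht
  have htr : (t : ℝ) = 24 * (m : ℝ) := by rw [ht]; push_cast; rfl
  have htE : (t : ℝ≥0∞) = 24 * (m : ℝ≥0∞) := by rw [ht]; push_cast; rfl
  have hq : ∀ x, ∑ y ∈ Finset.univ.erase 0, heat (PP m e) t x y ≤ qq m := by
    intro x
    have := away_le (m := m) he he1 (NNReal.coe_nonneg t) x
    rw [htr] at this
    rw [htr]
    exact this
  have hq1 : qq m ≤ 99/100 := by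
    have h3 : qq m * 1 ≤ qq m * (V + m + 1) := mul_le_mul_of_nonneg_left (by linarith) hq0
    linarith [hlt.2]
  refine ⟨isChain he he1, ?_, ?_, ?_, ?_⟩
  · rw [← htE]
    exact tauEnt_le hV0 hq (by linarith [hlt.2])
  · rw [← htE]
    exact rhoEnt_le hV0 hq (by linarith) hlt2.1.le hq1
  · refine ⟨Fin.last m, ?_⟩
    rw [one_div, Real.log_inv]
    have h3 : pi m e (Fin.last m) ≤ e := by
      unfold pi
      refine (div_le_self (w_pos he _).le (ZZ_ge he)).trans ?_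
      unfold w
      rw [Fin.val_last, if_neg (by omega)]
      exact div_le_self he.le (one_le_pow₀ (by norm_num))
    have h4 := Real.log_le_log (pi_pos he (Fin.last m)) h3
    rw [he_def, Real.log_exp] at h4
    linarith
  · intro x
    have hlog2 := Real.log_two_lt_d9
    have hlog2' : 0 < Real.log 2 := Real.log_pos (by norm_num)
    set L : ℝ := V - (m + 1) * Real.log 2 with hL
    have hL1 : V - 0.7 * (m + 1) ≤ L := by
      rw [hL]; nlinarith
    have hL2 : L ≤ V := by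
      rw [hL]; nlinarith
    have hM : e * Real.exp L * 2 ^ (m+1) = 1 := by
      have h5 : (2:ℝ) ^ (m+1) = Real.exp ((m + 1) * Real.log 2) := by
        rw [← Real.exp_log (show (0:ℝ) < 2 ^ (m+1) by positivity), Real.log_pow]
        push_cast; rfl
      rw [h5, he_def, ← Real.exp_add, ← Real.exp_add, hL]
      rw [show -V + (V - (↑m + 1) * Real.log 2) + (↑m + 1) * Real.log 2 = 0 by ring, Real.exp_zero]
    have hc := cMLS_le (m := m) (L := L) he (by linarith) (by omega) (by linarith) hM.le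
    have h6 : (ENNReal.ofReal (3/2 / (L - 2)))⁻¹ ≤ (cMLS (PP m e) (pi m e))⁻¹ :=
      ENNReal.inv_le_inv.2 hc
    refine le_trans ?_ h6
    have hL0 : 0 < L - 2 := by linarith
    rw [← ENNReal.ofReal_inv_of_pos (by positivity)]
    apply ENNReal.ofReal_le_ofReal
    rw [inv_div]
    have h7 := log_pi_le (m := m) hV0 x
    rw [one_div, Real.log_inv]
    linarith

theorem main (Cent : ℝ) (hC : 0 < Cent) :
    (∀ C : ℝ≥0, ∃ (n : ℕ) (P : Matrix (Fin n) (Fin n) ℝ) (π : Fin n → ℝ),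
      IsReversibleChain P π ∧ C * rhoEnt Cent P π < (cMLS P π)⁻¹ ∧
        C * tauEnt P π < (cMLS P π)⁻¹) ∧
    (∀ᶠ n : ℕ in atTop, ∃ (P : Matrix (Fin (n+1)) (Fin (n+1)) ℝ) (π : Fin (n+1) → ℝ),
      IsReversibleChain P π ∧ tauEnt P π ≤ 24 * n ∧ rhoEnt Cent P π ≤ 24 * n ∧
      (∃ x, (3/2 : ℝ)^n ≤ Real.log (1 / π x)) ∧
      ∀ x, ENNReal.ofReal (Real.log (1 / π x) / 4) ≤ (cMLS P π)⁻¹) := by
  have hall := ev_all Cent hC
  refine ⟨fun C => ?_, ?_⟩
  · have h1 : Tendsto (fun m : ℕ => (m:ℝ)^1 * (2/3 : ℝ)^m) atTop (𝓝 0) :=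
      tendsto_pow_const_mul_const_pow_of_abs_lt_one 1 (by rw [abs_of_pos] <;> norm_num)
    have h2 : ∀ᶠ m : ℕ in atTop, (m:ℝ)^1 * (2/3 : ℝ)^m < 1 / (96 * (C + 1)) :=
      h1.eventually (gt_mem_nhds (by positivity))
    obtain ⟨m, hm, hm2⟩ := (hall.and h2).exists
    obtain ⟨hch, htau, hrho, ⟨x, hx⟩, hx2⟩ := hm
    refine ⟨m+1, _, _, hch, ?_, ?_⟩
    all_goals
      have h3 : (C : ℝ≥0∞) * (24 * (m : ℝ≥0∞)) < ENNReal.ofReal ((3/2 : ℝ)^m / 4) := by
        have h4 : (C : ℝ≥0∞) * (24 * (m : ℝ≥0∞)) = ENNReal.ofReal (C * (24 * m)) := by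
          rw [ENNReal.ofReal_mul (NNReal.coe_nonneg C), ENNReal.ofReal_mul (by norm_num : (0:ℝ) ≤ 24)]
          simp
        rw [h4]
        refine (ENNReal.ofReal_lt_ofReal_iff (by positivity)).2 ?_
        have h5 : (0:ℝ) ≤ C := C.2
        rw [pow_one, lt_div_iff₀ (by positivity)] at hm2
        have h6 : (2/3 : ℝ)^m * (3/2)^m = 1 := by rw [← mul_pow]; norm_num
        have h7 : (0:ℝ) < (3/2)^m := by positivity
        have h8 : (m:ℝ) * (96 * (C + 1)) < (3/2)^m := by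
          have h9 := mul_lt_mul_of_pos_right hm2 h7
          have h10 : (m:ℝ) * (2/3)^m * (96 * (C+1)) * (3/2)^m = (m:ℝ) * (96 * (C+1)) * ((2/3)^m * (3/2)^m) := by ring
          rw [h10, h6, mul_one, one_mul] at h9
          exact h9
        have h11 : (0:ℝ) ≤ m := Nat.cast_nonneg m
        nlinarith
      have h12 : ENNReal.ofReal ((3/2 : ℝ)^m / 4) ≤ (cMLS (PP m (Real.exp (-(3/2 : ℝ)^m)))
          (pi m (Real.exp (-(3/2 : ℝ)^m))))⁻¹ := by
        refine le_trans ?_ (hx2 x)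
        apply ENNReal.ofReal_le_ofReal
        linarith
    · exact lt_of_le_of_lt (mul_le_mul_right hrho _) (lt_of_lt_of_le h3 h12)
    · exact lt_of_le_of_lt (mul_le_mul_right htau _) (lt_of_lt_of_le h3 h12)
  · filter_upwards [hall] with m hm
    exact ⟨_, _, hm⟩

end Pool.Agent.N933.MLS
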