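import Pool.Agent.N933.MLS.Defs

set_option autoImplicit false

open Matrix Finset
open scoped ENNReal NNReal BigOperators

namespace Pool.Agent.N933.MLS

variable {Ω : Type*} [Fintype Ω] [DecidableEq Ω]

theorem hasSum_congr_fun {f g : ℕ → ℝ} {a b : ℝ} (h : HasSum f a) (hfg : ∀ n, g n = f n)
    (hab : b = a) : HasSum g b := by
  rw [hab, show g = f from funext hfg]; exact h

section
attribute [local instance] Matrix.linftyOpNormedRing Matrix.linftyOpNormedAlgebra

theorem hasSum_exp (A : Matrix Ω Ω ℝ) (x y : Ω) :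
    HasSum (fun n : ℕ => ((n.factorial : ℝ)⁻¹) * (A ^ n) x y) ((NormedSpace.exp A) x y) := by
  have h := NormedSpace.exp_series_hasSum_exp' (𝕂 := ℝ) A
  have h2 := (Pi.hasSum.1 h) x
  exact (Pi.hasSum.1 h2) y

theorem heat_eq (P : Matrix Ω Ω ℝ) (t : ℝ) :
    heat P t = Real.exp (-t) • NormedSpace.exp (t • P) := by
  unfold heat
  have h1 : -(t • (1 - P)) = (-t) • (1 : Matrix Ω Ω ℝ) + t • P := by
    rw [smul_sub, neg_sub, neg_smul]; abel
  rw [h1, Matrix.exp_add_of_commute]
  · have h2 : (NormedSpace.exp ((-t) • (1 : Matrix Ω Ω ℝ))) = Real.exp (-t) • 1 := by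
      have := NormedSpace.algebraMap_exp_comm (𝕂 := ℝ) (𝔸 := Matrix Ω Ω ℝ) (-t)
      rw [Real.exp_eq_exp_ℝ]
      rw [Algebra.algebraMap_eq_smul_one, Algebra.algebraMap_eq_smul_one] at this
      exact this.symm
    rw [h2]; simp
  · exact (Commute.one_left _).smul_left _
end

theorem hasSum_heat (P : Matrix Ω Ω ℝ) (t : ℝ) (x y : Ω) :
    HasSum (fun n : ℕ => Real.exp (-t) * (t ^ n / n.factorial) * (P ^ n) x y) (heat P t x y) := by
  rw [heat_eq]
  have h := (hasSum_exp (t • P) x y).mul_left (Real.exp (-t))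
  simp only [smul_pow, Matrix.smul_apply, smul_eq_mul] at h ⊢
  exact hasSum_congr_fun h (fun n => by ring) rfl

theorem hasSum_heat_mulVec (P : Matrix Ω Ω ℝ) (t : ℝ) (v : Ω → ℝ) (x : Ω) :
    HasSum (fun n : ℕ => Real.exp (-t) * (t ^ n / n.factorial) * ((P ^ n) *ᵥ v) x)
      ((heat P t *ᵥ v) x) := by
  simp only [mulVec, dotProduct, Finset.mul_sum]
  refine hasSum_sum fun y _ => ?_
  have h := (hasSum_heat P t x y).mul_right (v y)
  exact hasSum_congr_fun h (fun n => by ring) rfl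

theorem hasSum_poisson (t r : ℝ) :
    HasSum (fun n : ℕ => Real.exp (-t) * (t ^ n / n.factorial) * r ^ n)
      (Real.exp (-((1 - r) * t))) := by
  have h := (NormedSpace.expSeries_div_hasSum_exp (𝔸 := ℝ) (t * r)).mul_left (Real.exp (-t))
  rw [← Real.exp_eq_exp_ℝ, ← Real.exp_add] at h
  exact hasSum_congr_fun h (fun n => by ring) (by congr 1; ring)

theorem pow_nonneg_of_nonneg {P : Matrix Ω Ω ℝ} (hP : ∀ x y, 0 ≤ P x y) (n : ℕ) (x y : Ω) :
    0 ≤ (P ^ n) x y := by
  induction n generalizing x y with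
  | zero => simp [Matrix.one_apply]; split_ifs <;> norm_num
  | succ n ih =>
    rw [pow_succ, Matrix.mul_apply]
    exact Finset.sum_nonneg fun z _ => mul_nonneg (ih x z) (hP z y)

theorem heat_nonneg {P : Matrix Ω Ω ℝ} (hP : ∀ x y, 0 ≤ P x y) {t : ℝ} (ht : 0 ≤ t) (x y : Ω) :
    0 ≤ heat P t x y := by
  refine (hasSum_heat P t x y).nonneg fun n => ?_
  have := pow_nonneg_of_nonneg hP n x y
  positivity

theorem pow_mulVec_one {P : Matrix Ω Ω ℝ} (hP : ∀ x, ∑ y, P x y = 1) (n : ℕ) (x : Ω) :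
    ((P ^ n) *ᵥ (fun _ => (1 : ℝ))) x = 1 := by
  induction n generalizing x with
  | zero => simp
  | succ n ih =>
    rw [pow_succ', ← Matrix.mulVec_mulVec]
    have : (P ^ n) *ᵥ (fun _ => (1 : ℝ)) = fun _ => 1 := funext ih
    rw [this]
    simp [mulVec, dotProduct, hP]

theorem heat_row_sum {P : Matrix Ω Ω ℝ} (hP : ∀ x, ∑ y, P x y = 1) (t : ℝ) (x : Ω) :
    ∑ y, heat P t x y = 1 := by
  have h := hasSum_heat_mulVec P t (fun _ => (1 : ℝ)) x
  simp only [pow_mulVec_one hP] at h
  have h2 := hasSum_poisson t 1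
  simp only [one_pow] at h2
  have h3 := h.unique h2
  simp [mulVec, dotProduct] at h3
  exact h3

/-- comparison of the powers of two nonnegative matrices -/
theorem pow_le_pow {P Q : Matrix Ω Ω ℝ} (hP : ∀ x y, 0 ≤ P x y) (h : ∀ x y, P x y ≤ Q x y)
    (n : ℕ) (x y : Ω) : (P ^ n) x y ≤ (Q ^ n) x y := by
  induction n generalizing x y with
  | zero => simp
  | succ n ih =>
    rw [pow_succ, pow_succ, Matrix.mul_apply, Matrix.mul_apply]
    refine Finset.sum_le_sum fun z _ => ?_
    exact mul_le_mul (ih x z) (h z y) (hP z y)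
      (pow_nonneg_of_nonneg (fun a b => (hP a b).trans (h a b)) n x z)

theorem heat_le_heat {P Q : Matrix Ω Ω ℝ} (hP : ∀ x y, 0 ≤ P x y) (h : ∀ x y, P x y ≤ Q x y)
    {t : ℝ} (ht : 0 ≤ t) (x y : Ω) : heat P t x y ≤ heat Q t x y := by
  refine hasSum_le (fun n => ?_) (hasSum_heat P t x y) (hasSum_heat Q t x y)
  have := pow_le_pow hP h n x y
  gcongr

theorem stay_le {P : Matrix Ω Ω ℝ} (hP : ∀ x y, 0 ≤ P x y) (A : Finset Ω) {t : ℝ} (ht : 0 ≤ t)
    (x : Ω) : stay P A t x ≤ ∑ y ∈ A, heat P t x y := by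
  unfold stay
  split_ifs with hx
  · refine Finset.sum_le_sum fun y _ => heat_le_heat ?_ ?_ ht x y
    · intro a b; unfold killed; split_ifs
      · exact hP a b
      · exact le_rfl
    · intro a b; unfold killed; split_ifs
      · exact le_rfl
      · exact hP a b
  · exact Finset.sum_nonneg fun y _ => heat_nonneg hP ht x y

/-- drift estimate -/
theorem heat_drift {P : Matrix Ω Ω ℝ} (hP : ∀ x y, 0 ≤ P x y) (hP1 : ∀ x, ∑ y, P x y = 1)
    {v : Ω → ℝ} {r c : ℝ} (hr0 : 0 ≤ r) (hr1 : r < 1) (hc : 0 ≤ c)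
    (h : ∀ x, (P *ᵥ v) x ≤ r * v x + c) {t : ℝ} (ht : 0 ≤ t) (x : Ω) :
    (heat P t *ᵥ v) x ≤ Real.exp (-((1 - r) * t)) * v x + c / (1 - r) := by
  have key : ∀ n : ℕ, ∀ x, ((P ^ n) *ᵥ v) x ≤ r ^ n * v x + c * (1 - r ^ n) / (1 - r) := by
    intro n
    induction n with
    | zero => intro x; simp
    | succ n ih =>
      intro x
      rw [pow_succ', ← Matrix.mulVec_mulVec]
      calc (P *ᵥ ((P ^ n) *ᵥ v)) x
          ≤ (P *ᵥ (fun y => r ^ n * v y + c * (1 - r ^ n) / (1 - r))) x := by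
            simp only [mulVec, dotProduct]
            refine Finset.sum_le_sum fun y _ => mul_le_mul_of_nonneg_left ?_ (hP x y)
            exact ih y
        _ = r ^ n * (P *ᵥ v) x + c * (1 - r ^ n) / (1 - r) := by
            simp only [mulVec, dotProduct, mul_add, Finset.sum_add_distrib]
            rw [← Finset.sum_mul, hP1, one_mul, Finset.mul_sum]
            congr 1
            exact Finset.sum_congr rfl fun y _ => by ring
        _ ≤ r ^ n * (r * v x + c) + c * (1 - r ^ n) / (1 - r) := by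
            have := h x
            gcongr
        _ = r ^ (n+1) * v x + c * (1 - r ^ (n+1)) / (1 - r) := by
            have : (1 - r) ≠ 0 := by linarith
            field_simp
            ring
  have h1 := hasSum_heat_mulVec P t v x
  have h2 : HasSum (fun n : ℕ => Real.exp (-t) * (t ^ n / n.factorial) * (r ^ n) * v x +
      Real.exp (-t) * (t ^ n / n.factorial) * 1 ^ n * (c / (1 - r)))
      (Real.exp (-((1 - r) * t)) * v x + Real.exp (-((1 - 1) * t)) * (c / (1 - r))) :=
    ((hasSum_poisson t r).mul_right (v x)).add ((hasSum_poisson t 1).mul_right (c / (1 - r)))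
  have h3 := hasSum_le (fun n => ?_) h1 h2
  · simpa using h3
  · have hk := key n x
    have h4 : c * (1 - r ^ n) / (1 - r) ≤ c / (1 - r) := by
      have : 0 < 1 - r := by linarith
      have h5 : c * (1 - r ^ n) ≤ c := by nlinarith [pow_nonneg hr0 n]
      gcongr
    have h6 : 0 ≤ Real.exp (-t) * (t ^ n / n.factorial) := by positivity
    calc Real.exp (-t) * (t ^ n / n.factorial) * ((P ^ n) *ᵥ v) x
        ≤ Real.exp (-t) * (t ^ n / n.factorial) * (r ^ n * v x + c / (1 - r)) := by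
          refine mul_le_mul_of_nonneg_left ?_ h6
          linarith
      _ = _ := by rw [one_pow]; ring

end Pool.Agent.N933.MLS
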