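import Pool.Agent.N933.MLS.Chain

set_option autoImplicit false

open Matrix Finset Filter Topology
open scoped ENNReal NNReal BigOperators

namespace Pool.Agent.N933.MLS

/-! ### upper bounds on `tauEnt` and `rhoEnt` -/

theorem log_pi_zero {m : ℕ} {e : ℝ} (he : 0 < e) : -Real.log (pi m e 0) ≤ e := by
  have h1 : pi m e 0 = (ZZ m e)⁻¹ := by simp [pi, w]
  rw [h1, Real.log_inv, neg_neg]
  have h2 := Real.log_le_sub_one_of_pos (lt_of_lt_of_le one_pos (ZZ_ge (m := m) he))
  have h3 := ZZ_le (m := m) he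
  linarith

/-- `V = log (1/e)` -/
theorem log_pi_le {m : ℕ} {V : ℝ} (hV : 0 ≤ V) (i : Fin (m+1)) :
    -Real.log (pi m (Real.exp (-V)) i) ≤ V + m + 1 := by
  have he : 0 < Real.exp (-V) := Real.exp_pos _
  have he1 : Real.exp (-V) ≤ 1 := by rw [Real.exp_le_one_iff]; linarith
  have hZ1 := ZZ_ge (m := m) he
  have hZ : Real.log (ZZ m (Real.exp (-V))) ≤ 1 := by
    have h2 := Real.log_le_sub_one_of_pos (lt_of_lt_of_le one_pos hZ1)
    have h3 := ZZ_le (m := m) he
    linarith
  have hm : (0:ℝ) ≤ m := Nat.cast_nonneg m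
  unfold pi
  rw [Real.log_div (w_pos he _).ne' (by linarith)]
  have hw : -Real.log (w (Real.exp (-V)) i) ≤ V + m := by
    unfold w
    split_ifs with h
    · simp; linarith
    · rw [Real.log_div he.ne' (by positivity), Real.log_exp, Real.log_pow]
      have h5 : Real.log 2 ≤ 1 := by
        have := Real.log_two_lt_d9; linarith
      have h6 : ((i : ℕ) : ℝ) * Real.log 2 ≤ m := by
        have h7 : ((i : ℕ) : ℝ) ≤ m := by
          have := i.2
          exact_mod_cast (by omega : (i : ℕ) ≤ m)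
        have h8 : 0 ≤ Real.log 2 := Real.log_nonneg (by norm_num)
        nlinarith
      linarith
  linarith

theorem relEnt_le {m : ℕ} {V : ℝ} (hV : 0 ≤ V) {t q : ℝ} (ht : 0 ≤ t) (x : Fin (m+1))
    (hq : ∑ y ∈ Finset.univ.erase 0, heat (PP m (Real.exp (-V))) t x y ≤ q) :
    relEnt (fun y => heat (PP m (Real.exp (-V))) t x y) (pi m (Real.exp (-V))) ≤
      Real.exp (-V) + q * (V + m + 1) := by
  set e := Real.exp (-V) with he_def
  have he : 0 < e := Real.exp_pos _
  have he1 : e ≤ 1 := by rw [he_def, Real.exp_le_one_iff]; linarith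
  have hP := PP_nonneg m e he.le he1
  have hh := fun y => heat_nonneg hP ht x y
  have hs := heat_row_sum (PP_row_sum m e) t x
  have hle1 : ∀ y, heat (PP m e) t x y ≤ 1 := by
    intro y
    rw [← hs]
    exact Finset.single_le_sum (fun z _ => hh z) (Finset.mem_univ y)
  have hterm : ∀ y, heat (PP m e) t x y * Real.log (heat (PP m e) t x y / pi m e y) ≤
      heat (PP m e) t x y * (-Real.log (pi m e y)) := by
    intro y
    rcases (hh y).eq_or_lt with h0 | h0
    · rw [← h0]; simp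
    · refine mul_le_mul_of_nonneg_left ?_ (hh y)
      rw [Real.log_div h0.ne' (pi_pos he y).ne']
      have := Real.log_nonpos (hh y) (hle1 y)
      linarith
  unfold relEnt
  calc ∑ y, heat (PP m e) t x y * Real.log (heat (PP m e) t x y / pi m e y)
      ≤ ∑ y, heat (PP m e) t x y * (-Real.log (pi m e y)) := Finset.sum_le_sum fun y _ => hterm y
    _ = heat (PP m e) t x 0 * (-Real.log (pi m e 0)) +
        ∑ y ∈ Finset.univ.erase 0, heat (PP m e) t x y * (-Real.log (pi m e y)) := by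
        exact (Finset.add_sum_erase Finset.univ
          (fun y => heat (PP m e) t x y * (-Real.log (pi m e y))) (Finset.mem_univ 0)).symm
    _ ≤ 1 * e + ∑ y ∈ Finset.univ.erase 0, heat (PP m e) t x y * (V + m + 1) := by
        refine add_le_add ?_ (Finset.sum_le_sum fun y _ => ?_)
        · exact mul_le_mul (hle1 0) (log_pi_zero he)
            (by
              have : Real.log (pi m e 0) ≤ 0 := Real.log_nonpos (pi_pos he 0).le (by
                rw [← pi_sum (m := m) he]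
                exact Finset.single_le_sum (fun z _ => (pi_pos he z).le) (Finset.mem_univ _))
              linarith) zero_le_one
        · exact mul_le_mul_of_nonneg_left (log_pi_le hV y) (hh y)
    _ ≤ e + q * (V + m + 1) := by
        rw [← Finset.sum_mul, one_mul]
        have : (0:ℝ) ≤ V + m + 1 := by positivity
        gcongr

theorem tauEnt_le {m : ℕ} {V : ℝ} (hV : 0 ≤ V) {t : ℝ≥0} {q : ℝ}
    (hq : ∀ x, ∑ y ∈ Finset.univ.erase 0, heat (PP m (Real.exp (-V))) t x y ≤ q)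
    (h : Real.exp (-V) + q * (V + m + 1) ≤ 1/2) :
    tauEnt (PP m (Real.exp (-V))) (pi m (Real.exp (-V))) ≤ t := by
  unfold tauEnt
  refine iSup_le fun x => iInf₂_le t ?_
  exact (relEnt_le hV (NNReal.coe_nonneg t) x (hq x)).trans h

theorem rhoEnt_le {m : ℕ} {V : ℝ} (hV : 0 ≤ V) {t : ℝ≥0} {q Cent : ℝ}
    (hq : ∀ x, ∑ y ∈ Finset.univ.erase 0, heat (PP m (Real.exp (-V))) t x y ≤ q)
    (he4 : Real.exp (-V) < 1) (h1 : q * (V + m + 1) ≤ Cent) (h2 : q ≤ 99/100) :
    rhoEnt Cent (PP m (Real.exp (-V))) (pi m (Real.exp (-V))) ≤ t := by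
  set e := Real.exp (-V) with he_def
  have he : 0 < e := Real.exp_pos _
  have hP := PP_nonneg m e he.le he4.le
  unfold rhoEnt
  refine iSup_le fun x => iInf₂_le t ?_
  intro A hne _ hA
  have hpos : 0 < ∑ a ∈ A, pi m e a := Finset.sum_pos (fun a _ => pi_pos he a) hne
  have h0 : (0 : Fin (m+1)) ∉ A := by
    intro h0
    have h3 : pi m e 0 ≤ ∑ a ∈ A, pi m e a :=
      Finset.single_le_sum (fun a _ => (pi_pos he a).le) h0
    have h4 : pi m e 0 = (ZZ m e)⁻¹ := by simp [pi, w]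
    have h5 := ZZ_le (m := m) he
    have h6 := ZZ_ge (m := m) he
    have h7 : (1/2 : ℝ) < (ZZ m e)⁻¹ := by
      rw [lt_inv_comm₀ (by norm_num) (by linarith)]
      norm_num; linarith
    linarith
  have hstay : stay (PP m e) A t x ≤ q := by
    refine (stay_le hP A t.2 x).trans ?_
    refine le_trans (Finset.sum_le_sum_of_subset_of_nonneg ?_ ?_) (hq x)
    · intro a ha
      rw [Finset.mem_erase]
      exact ⟨fun h => h0 (h ▸ ha), Finset.mem_univ _⟩
    · intro y _ _; exact heat_nonneg hP t.2 x y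
  refine le_min ?_ (hstay.trans h2)
  refine hstay.trans ?_
  have hlog : Real.log (∑ a ∈ A, pi m e a) < 0 := Real.log_neg hpos (by linarith)
  rw [abs_of_neg hlog, le_div_iff₀ (by linarith)]
  have hq0 : 0 ≤ q := by
    refine le_trans (Finset.sum_nonneg fun y _ => ?_) (hq 0)
    exact heat_nonneg hP t.2 0 y
  obtain ⟨a, ha⟩ := hne
  have h8 : -Real.log (∑ a ∈ A, pi m e a) ≤ V + m + 1 := by
    refine le_trans ?_ (log_pi_le (m := m) hV a)
    rw [neg_le_neg_iff]
    refine Real.log_le_log (pi_pos he a) ?_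
    exact Finset.single_le_sum (fun a _ => (pi_pos he a).le) ha
  exact (mul_le_mul_of_nonneg_left h8 hq0).trans h1

/-! ### the test function -/

noncomputable def ff (L : ℝ) {m : ℕ} (i : Fin (m+1)) : ℝ :=
  if (i : ℕ) = 0 then 0 else L + (i : ℕ) * Real.log 4

theorem exp_ff (L : ℝ) {m : ℕ} (i : Fin (m+1)) :
    Real.exp (ff L i) = if (i : ℕ) = 0 then 1 else Real.exp L * 4 ^ (i : ℕ) := by
  unfold ff
  split_ifs with h
  · simp
  · rw [Real.exp_add, mul_comm ((i : ℕ) : ℝ), Real.exp_mul, Real.exp_log (by norm_num)]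
    simp

theorem log4_le : Real.log 4 ≤ 7/5 := by
  have h : Real.log 4 = 2 * Real.log 2 := by
    rw [show (4:ℝ) = 2 ^ 2 by norm_num, Real.log_pow]; norm_num
  rw [h]
  have := Real.log_two_lt_d9
  linarith

theorem log4_pos : 0 < Real.log 4 := Real.log_pos (by norm_num)

theorem geo2 (m : ℕ) : ∑ k : Fin m, (2:ℝ) ^ ((k : ℕ) + 1) = 2 ^ (m+1) - 2 := by
  induction m with
  | zero => norm_num
  | succ n ih =>
    rw [Fin.sum_univ_castSucc]
    simp only [Fin.val_castSucc, Fin.val_last]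
    rw [ih]; ring

theorem dirichlet_le {m : ℕ} {e L : ℝ} (he : 0 < e) (hL : 0 ≤ L) (hm : L + 2 ≤ 2 ^ m) :
    dirichlet (PP m e) (pi m e) (fun x => Real.exp (ff L x)) (ff L) ≤
      e * Real.exp L / ZZ m e * (9/4 * 2 ^ m) := by
  rw [dirichlet_eq]
  have hZ := ZZ_ge (m := m) he
  have hZ0 : 0 < ZZ m e := by linarith
  have hc : 0 ≤ e * Real.exp L / ZZ m e := by positivity
  cases m with
  | zero => 
    simp at hm ⊢
    positivity
  | succ n =>
    rw [Fin.sum_univ_succ]
    have hA : (1:ℝ) ≤ Real.exp L := Real.one_le_exp hL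
    have hfirst : pi (n+1) e (0 : Fin (n+1)).castSucc * u e ((0 : Fin (n+1)) : ℕ) *
        ((Real.exp (ff L (0 : Fin (n+1)).succ) - Real.exp (ff L (0 : Fin (n+1)).castSucc)) *
        (ff L (0 : Fin (n+1)).succ - ff L (0 : Fin (n+1)).castSucc)) ≤
        e * Real.exp L / ZZ (n+1) e * (L + 7/5) := by
      rw [exp_ff, exp_ff]
      simp only [ff, pi, u, w, Fin.val_succ, Fin.val_castSucc, Fin.val_zero, zero_add, if_true,
        one_ne_zero, if_false, pow_one, sub_zero, Nat.cast_one, one_mul]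
      have h4 := log4_le
      have h4' := log4_pos
      have h5 : (Real.exp L * 4 - 1) * (L + Real.log 4) ≤ (Real.exp L * 4) * (L + 7/5) := by
        apply mul_le_mul <;> linarith
      calc 1 / ZZ (n+1) e * (e / 4) * ((Real.exp L * 4 - 1) * (L + Real.log 4))
          ≤ 1 / ZZ (n+1) e * (e / 4) * ((Real.exp L * 4) * (L + 7/5)) := by
            gcongr
        _ = e * Real.exp L / ZZ (n+1) e * (L + 7/5) := by field_simp
    have hrest : ∀ k : Fin n, pi (n+1) e k.succ.castSucc * u e (k.succ : Fin (n+1)) *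
        ((Real.exp (ff L k.succ.succ) - Real.exp (ff L k.succ.castSucc)) *
        (ff L k.succ.succ - ff L k.succ.castSucc)) ≤
        e * Real.exp L / ZZ (n+1) e * (21/20) * 2 ^ ((k : ℕ) + 1) := by
      intro k
      rw [exp_ff, exp_ff]
      simp only [ff, pi, u, w, Fin.val_succ, Fin.val_castSucc, Nat.succ_ne_zero, if_false]
      have h4 := log4_le
      have h4' := log4_pos
      have h6 : (L + ((k:ℕ) + 1 + 1 : ℕ) * Real.log 4 - (L + ((k:ℕ) + 1 : ℕ) * Real.log 4)) =
        Real.log 4 := by push_cast; ring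
      have h7 : (Real.exp L * 4 ^ ((k:ℕ) + 1 + 1) - Real.exp L * 4 ^ ((k:ℕ) + 1)) =
        3 * Real.exp L * 4 ^ ((k : ℕ) + 1) := by rw [pow_succ]; ring
      rw [h6, h7]
      have h8 : (4:ℝ) ^ ((k : ℕ) + 1) = 2 ^ ((k : ℕ) + 1) * 2 ^ ((k : ℕ) + 1) := by
        rw [← mul_pow]; norm_num
      rw [h8]
      have h9 : (0:ℝ) < 2 ^ ((k : ℕ) + 1) := by positivity
      calc e / 2 ^ ((k:ℕ) + 1) / ZZ (n+1) e * (1/4) * (3 * Real.exp L * (2 ^ ((k:ℕ)+1) * 2 ^ ((k:ℕ)+1)) * Real.log 4)
          = e * Real.exp L / ZZ (n+1) e * 2 ^ ((k:ℕ)+1) * (3/4 * Real.log 4) := by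
            field_simp
        _ ≤ e * Real.exp L / ZZ (n+1) e * 2 ^ ((k:ℕ)+1) * (21/20) := by
            have : 3/4 * Real.log 4 ≤ 21/20 := by linarith
            gcongr
        _ = _ := by ring
    have hsum := Finset.sum_le_sum (s := Finset.univ) (fun k _ => hrest k)
    rw [← Finset.mul_sum, geo2] at hsum
    have h2 : (0:ℝ) < 2 ^ n := by positivity
    have h10 : e * Real.exp L / ZZ (n+1) e * (L + 7/5) + e * Real.exp L / ZZ (n+1) e * (21/20) * (2 ^ (n+1) - 2)
       ≤ e * Real.exp L / ZZ (n+1) e * (9/4 * 2 ^ (n+1)) := by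
      have h11 : (L + 7/5) + (21/20) * (2 ^ (n+1) - 2) ≤ (9/4 * 2 ^ (n+1) : ℝ) := by
        nlinarith
      calc _ = e * Real.exp L / ZZ (n+1) e * ((L + 7/5) + (21/20) * (2 ^ (n+1) - 2)) := by ring
        _ ≤ _ := by gcongr
    linarith

theorem ent_ge {m : ℕ} {e L : ℝ} (he : 0 < e) (hL : 0 ≤ L)
    (hM : e * Real.exp L * 2 ^ (m+1) ≤ 1) :
    e * Real.exp L / ZZ m e * (2 ^ (m+1) - 2) * (L - 2) ≤
      ent (pi m e) (fun x => Real.exp (ff L x)) := by
  have hZ := ZZ_ge (m := m) he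
  have hZ0 : 0 < ZZ m e := by linarith
  set M := e * Real.exp L / ZZ m e * (2 ^ (m+1) - 2) with hMdef
  have h2m : (2:ℝ) ≤ 2 ^ (m+1) := by
    rw [pow_succ]
    have : (1:ℝ) ≤ 2 ^ m := one_le_pow₀ (by norm_num)
    linarith
  have hM0 : 0 ≤ M := by
    have : (0:ℝ) ≤ 2 ^ (m+1) - 2 := by linarith
    positivity
  have hM1 : M ≤ 1 := by
    have h1 : e * Real.exp L / ZZ m e ≤ e * Real.exp L := div_le_self (by positivity) hZ
    calc M ≤ e * Real.exp L * (2 ^ (m+1)) := by
          rw [hMdef]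
          apply mul_le_mul h1 (by linarith) (by linarith) (by positivity)
      _ ≤ 1 := hM
  have hterm : ∀ k : Fin m, pi m e k.succ * Real.exp (ff L k.succ) =
      e * Real.exp L / ZZ m e * 2 ^ ((k : ℕ) + 1) := by
    intro k
    rw [exp_ff]
    simp only [pi, w, Fin.val_succ, Nat.succ_ne_zero, if_false]
    have h8 : (4:ℝ) ^ ((k : ℕ) + 1) = 2 ^ ((k : ℕ) + 1) * 2 ^ ((k : ℕ) + 1) := by
      rw [← mul_pow]; norm_num
    rw [h8]
    field_simp
  have hS : ∑ x, pi m e x * Real.exp (ff L x) = 1 / ZZ m e + M := by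
    rw [Fin.sum_univ_succ]
    congr 1
    · rw [exp_ff]; simp [pi, w]
    · simp_rw [hterm]
      rw [← Finset.mul_sum, geo2]
  have hH : M * L ≤ ∑ x, pi m e x * (Real.exp (ff L x) * Real.log (Real.exp (ff L x))) := by
    rw [Fin.sum_univ_succ]
    have h0 : pi m e 0 * (Real.exp (ff L (0 : Fin (m+1))) * Real.log (Real.exp (ff L (0 : Fin (m+1))))) = 0 := by
      rw [exp_ff]; simp
    rw [h0, zero_add]
    have h1 : M * L = ∑ k : Fin m, e * Real.exp L / ZZ m e * 2 ^ ((k : ℕ) + 1) * L := by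
      rw [← Finset.sum_mul, ← Finset.mul_sum, geo2]
    rw [h1]
    refine Finset.sum_le_sum fun k _ => ?_
    rw [← mul_assoc, hterm, Real.log_exp]
    refine mul_le_mul_of_nonneg_left ?_ (by positivity)
    simp only [ff, Fin.val_succ, Nat.succ_ne_zero, if_false]
    have := log4_pos
    have : (0:ℝ) ≤ ((k : ℕ) + 1 : ℕ) * Real.log 4 := by positivity
    linarith
  unfold ent
  rw [hS]
  have hS0 : 0 < 1 / ZZ m e + M := by positivity
  have hlog := Real.log_le_sub_one_of_pos hS0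
  have hZi : 1 / ZZ m e ≤ 1 := by rw [div_le_one hZ0]; exact hZ
  have hSlog : (1 / ZZ m e + M) * Real.log (1 / ZZ m e + M) ≤ 2 * M := by
    rcases le_or_gt (Real.log (1 / ZZ m e + M)) 0 with h | h
    · have : (1 / ZZ m e + M) * Real.log (1 / ZZ m e + M) ≤ 0 :=
        mul_nonpos_of_nonneg_of_nonpos hS0.le h
      linarith
    · have h3 : Real.log (1 / ZZ m e + M) ≤ M := by linarith
      have h4 : 1 / ZZ m e + M ≤ 2 := by linarith
      exact mul_le_mul h4 h3 h.le (by norm_num)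
  have hfin : M * (L - 2) = M * L - 2 * M := by ring
  rw [hfin]
  exact sub_le_sub hH hSlog

theorem cMLS_le {m : ℕ} {e L : ℝ} (he : 0 < e) (hL : 2 < L) (hm2 : 2 ≤ m)
    (hm : L + 2 ≤ 2 ^ m) (hM : e * Real.exp L * 2 ^ (m+1) ≤ 1) :
    cMLS (PP m e) (pi m e) ≤ ENNReal.ofReal (3/2 / (L - 2)) := by
  have hZ := ZZ_ge (m := m) he
  have hZ0 : 0 < ZZ m e := by linarith
  unfold cMLS
  refine iInf₂_le_of_le (ff L) ⟨0, Fin.last m, ?_⟩ ?_
  · have h1 : ff L (0 : Fin (m+1)) = 0 := by simp [ff]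
    have h2 : ff L (Fin.last m) = L + m * Real.log 4 := by
      simp only [ff, Fin.val_last]
      rw [if_neg (by omega)]
    rw [h1, h2]
    have := log4_pos
    have : (0:ℝ) ≤ m * Real.log 4 := by positivity
    linarith
  · apply ENNReal.ofReal_le_ofReal
    have h1 := dirichlet_le (m := m) he (by linarith : 0 ≤ L) hm
    have h2 := ent_ge (m := m) he (by linarith : 0 ≤ L) hM
    have h4m : (4:ℝ) ≤ 2 ^ m := by
      calc (4:ℝ) = 2 ^ 2 := by norm_num
        _ ≤ 2 ^ m := pow_le_pow_right₀ (by norm_num) hm2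
    have h3 : 0 < e * Real.exp L / ZZ m e * (2 ^ (m+1) - 2) * (L - 2) := by
      have : (0:ℝ) < 2 ^ (m+1) - 2 := by rw [pow_succ]; linarith
      have : 0 < L - 2 := by linarith
      positivity
    rw [div_le_iff₀ (lt_of_lt_of_le h3 h2)]
    have h5 : 0 < L - 2 := by linarith
    calc dirichlet (PP m e) (pi m e) (fun x => Real.exp (ff L x)) (ff L)
        ≤ e * Real.exp L / ZZ m e * (9/4 * 2 ^ m) := h1
      _ ≤ e * Real.exp L / ZZ m e * (3/2 * (2 ^ (m+1) - 2)) := by
          have : (9/4 * 2 ^ m : ℝ) ≤ 3/2 * (2 ^ (m+1) - 2) := by rw [pow_succ]; linarith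
          gcongr
      _ = 3/2 / (L - 2) * (e * Real.exp L / ZZ m e * (2 ^ (m+1) - 2) * (L - 2)) := by
          field_simp
      _ ≤ 3/2 / (L - 2) * ent (pi m e) (fun x => Real.exp (ff L x)) := by
          gcongr

end Pool.Agent.N933.MLS
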